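import Pool.Agent.W95.BK.Stm

/-! BK-MIX (helper782): the mean ergodic theorem for the equilibrium measure. -/

open Polynomial Topology Filter MeasureTheory
open scoped ENNReal

namespace Pool.Agent.W782.BKM

open Pool.Agent.W95.BK

universe u

variable {K : Type u} [NontriviallyNormedField K] [IsUltrametricDist K]

theorem int_cont (ρ : Measure (P1B K)) [IsProbabilityMeasure ρ] {f : P1B K → ℝ}
    (hf : Continuous f) : Integrable f ρ :=
  (BoundedContinuousFunction.mkOfCompact ⟨f, hf⟩).integrable ρ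

theorem count (k j₀ i : ℕ) :
    ((Finset.range k).filter (fun j => j < i + j₀ ∧ i < j + j₀)).card ≤ 2 * j₀ := by
  have h : (Finset.range k).filter (fun j => j < i + j₀ ∧ i < j + j₀) ⊆
      Finset.Ico (i + 1 - j₀) (i + j₀) := by
    intro j hj
    simp only [Finset.mem_filter, Finset.mem_Ico] at hj ⊢
    omega
  have h2 := Finset.card_le_card h
  rw [Nat.card_Ico] at h2
  omega

theorem dsum {k j₀ : ℕ} {a : ℕ → ℕ → ℝ} {A e : ℝ} (hA : 0 ≤ A) (he : 0 ≤ e)
    (h1 : ∀ i j, a i j ≤ A) (h2 : ∀ i j, ¬ (j < i + j₀ ∧ i < j + j₀) → a i j ≤ e) :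
    ∑ i ∈ Finset.range k, ∑ j ∈ Finset.range k, a i j ≤ k * (2 * j₀ * A) + k * (k * e) := by
  have h3 : ∀ i ∈ Finset.range k, ∑ j ∈ Finset.range k, a i j ≤ 2 * j₀ * A + k * e := by
    intro i _
    have h4 : ∀ j ∈ Finset.range k, a i j ≤ (if j < i + j₀ ∧ i < j + j₀ then A else 0) + e := by
      intro j _
      by_cases h : j < i + j₀ ∧ i < j + j₀
      · rw [if_pos h]; linarith [h1 i j]
      · rw [if_neg h]; linarith [h2 i j h]
    refine (Finset.sum_le_sum h4).trans ?_
    rw [Finset.sum_add_distrib, ← Finset.sum_filter, Finset.sum_const, Finset.sum_const,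
      Finset.card_range, nsmul_eq_mul, nsmul_eq_mul]
    have h5 : (((Finset.range k).filter (fun j => j < i + j₀ ∧ i < j + j₀)).card : ℝ) ≤ 2 * j₀ := by
      exact_mod_cast count k j₀ i
    nlinarith
  refine (Finset.sum_le_sum h3).trans ?_
  rw [Finset.sum_const, Finset.card_range, nsmul_eq_mul]
  nlinarith

theorem main : S_MIXC.{u} → S_INVM.{u} → S_ACTC.{u} → S_ITER.{u} → S_FUNC.{u} → S_MIX.{u} := by
  intro hM hI hA hIt hF K _ _ _ R hR ρ hρ hE φ ε hε
  set c := ∫ z, φ z ∂ρ with hc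
  -- the centred function
  set ψ : C(P1B K, ℝ) := φ - ContinuousMap.const _ c with hψ
  have hψa : ∀ x, ψ x = φ x - c := fun x => by simp [hψ]
  have hψ0 : ∫ x, ψ x ∂ρ = 0 := by
    simp only [hψa]
    rw [integral_sub (int_cont ρ φ.continuous) (integrable_const _), integral_const]
    simp [← hc]
  set N : ℝ := ‖ψ‖ + 1 with hN
  have hN1 : 1 ≤ N := by
    have := norm_nonneg ψ
    linarith
  have hN0 : 0 < N := by linarith
  have hψN : ∀ x, |ψ x| ≤ N := by
    intro x
    have := ψ.norm_coe_le_norm x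
    rw [Real.norm_eq_abs] at this
    linarith
  obtain ⟨j₀, hj₀⟩ := hM K R hR ρ hρ hE ψ (ε ^ 2 / 2 / N) (by positivity)
  have hmix : ∀ j ≥ j₀, |∫ x, ψ x * ψ ((R.iter j).act x) ∂ρ| ≤ ε ^ 2 / 2 := by
    intro j hj
    have h1 := hj₀ j hj (N⁻¹ • ψ) (fun x => by
      rw [ContinuousMap.smul_apply, smul_eq_mul, abs_mul, abs_of_pos (inv_pos.2 hN0),
        inv_mul_le_iff₀ hN0, mul_one]
      exact hψN x)
    rw [hψ0, zero_mul, sub_zero] at h1
    have e1 : ∫ x, ψ x * (N⁻¹ • ψ) ((R.iter j).act x) ∂ρ =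
        N⁻¹ * ∫ x, ψ x * ψ ((R.iter j).act x) ∂ρ := by
      rw [← integral_const_mul]
      congr 1
      ext x
      rw [ContinuousMap.smul_apply, smul_eq_mul]
      ring
    rw [e1, abs_mul, abs_of_pos (inv_pos.2 hN0), inv_mul_le_iff₀ hN0] at h1
    have e2 : N * (ε ^ 2 / 2 / N) = ε ^ 2 / 2 := by field_simp
    rwa [e2] at h1
  have hcont : ∀ j, Continuous (fun x => ψ ((R.iter j).act x)) := fun j =>
    ψ.continuous.comp (hA K (R.iter j))
  set a : ℕ → ℕ → ℝ := fun i j => ∫ x, ψ ((R.iter i).act x) * ψ ((R.iter j).act x) ∂ρ with ha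
  have hsym : ∀ i j, a i j = a j i := by
    intro i j
    simp only [ha]
    congr 1
    ext x
    ring
  have hinv : ∀ i l, a i (l + i) = ∫ x, ψ x * ψ ((R.iter l).act x) ∂ρ := by
    intro i l
    have h1 := hI K R hR ρ hρ hE
      (⟨fun x => ψ x * ψ ((R.iter l).act x), ψ.continuous.mul (hcont l)⟩ : C(P1B K, ℝ)) i
    simp only [ContinuousMap.coe_mk] at h1
    rw [← h1]
    simp only [ha]
    congr 1
    ext x
    rw [(hIt K R).2.1 l i, (hF K).1]
  have hbd : ∀ i j, a i j ≤ N ^ 2 := by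
    intro i j
    have h1 : a i j ≤ ∫ _ : P1B K, N ^ 2 ∂ρ := by
      apply integral_mono (int_cont ρ ((hcont i).mul (hcont j))) (integrable_const _)
      intro x
      have h2 := hψN ((R.iter i).act x)
      have h3 := hψN ((R.iter j).act x)
      have h4 : |ψ ((R.iter i).act x) * ψ ((R.iter j).act x)| ≤ N * N := by
        rw [abs_mul]
        exact mul_le_mul h2 h3 (abs_nonneg _) hN0.le
      have h5 := le_abs_self (ψ ((R.iter i).act x) * ψ ((R.iter j).act x))
      show ψ ((R.iter i).act x) * ψ ((R.iter j).act x) ≤ N ^ 2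
      rw [sq]
      exact h5.trans h4
    rw [integral_const] at h1
    simpa using h1
  have hsm : ∀ i j, ¬ (j < i + j₀ ∧ i < j + j₀) → a i j ≤ ε ^ 2 / 2 := by
    intro i j h
    rcases le_total i j with hij | hij
    · obtain ⟨l, rfl⟩ := Nat.exists_eq_add_of_le' hij
      rw [hinv]
      exact (le_abs_self _).trans (hmix l (by omega))
    · obtain ⟨l, rfl⟩ := Nat.exists_eq_add_of_le' hij
      rw [hsym, hinv]
      exact (le_abs_self _).trans (hmix l (by omega))
  obtain ⟨k0, hk0⟩ := exists_nat_ge (4 * j₀ * N ^ 2 / ε ^ 2)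
  set k := k0 + 1 with hk
  have hkpos : (0 : ℝ) < k := by rw [hk]; push_cast; positivity
  refine ⟨k, by omega, ?_⟩
  set B : P1B K → ℝ := fun x => (∑ j ∈ Finset.range k, φ ((R.iter j).act x)) / k - c with hB
  have hB2 : ∀ x, B x = (∑ j ∈ Finset.range k, ψ ((R.iter j).act x)) / k := by
    intro x
    simp only [hB, hψa]
    rw [Finset.sum_sub_distrib, Finset.sum_const, Finset.card_range, nsmul_eq_mul]
    field_simp
  have hBc : Continuous B := by
    have : B = fun x => (∑ j ∈ Finset.range k, ψ ((R.iter j).act x)) / k := funext hB2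
    rw [this]
    exact (continuous_finsetSum _ fun j _ => hcont j).div_const _
  have hBsq : ∫ x, B x ^ 2 ∂ρ ≤ ε ^ 2 := by
    have e1 : ∀ x, B x ^ 2 = (∑ i ∈ Finset.range k, ∑ j ∈ Finset.range k,
        ψ ((R.iter i).act x) * ψ ((R.iter j).act x)) / (k : ℝ) ^ 2 := by
      intro x
      rw [hB2, div_pow, sq (∑ j ∈ Finset.range k, ψ ((R.iter j).act x)), Finset.sum_mul_sum]
    simp only [e1]
    rw [integral_div, integral_finsetSum]
    · have e2 : ∀ i ∈ Finset.range k, ∫ x, ∑ j ∈ Finset.range k,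
          ψ ((R.iter i).act x) * ψ ((R.iter j).act x) ∂ρ = ∑ j ∈ Finset.range k, a i j := by
        intro i _
        rw [integral_finsetSum]
        intro j _
        exact int_cont ρ ((hcont i).mul (hcont j))
      rw [Finset.sum_congr rfl e2, div_le_iff₀ (by positivity)]
      refine (dsum (by positivity) (by positivity) hbd hsm).trans ?_
      have h1 : 4 * j₀ * N ^ 2 ≤ ε ^ 2 * k := by
        rw [div_le_iff₀ (by positivity)] at hk0
        have : (k0 : ℝ) ≤ k := by rw [hk]; push_cast; linarith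
        nlinarith [sq_nonneg ε]
      nlinarith
    · intro i _
      exact int_cont ρ (continuous_finsetSum _ fun j _ => (hcont i).mul (hcont j))
  have hle : ∀ x, |B x| ≤ B x ^ 2 / (2 * ε) + ε / 2 := by
    intro x
    have h1 : 0 ≤ (|B x| - ε) ^ 2 := sq_nonneg _
    rw [← sq_abs (B x)]
    have h2 : |B x| ^ 2 / (2 * ε) + ε / 2 - |B x| = (|B x| - ε) ^ 2 / (2 * ε) := by
      field_simp
      ring
    have h3 : 0 ≤ (|B x| - ε) ^ 2 / (2 * ε) := by positivity
    linarith
  calc ∫ x, |B x| ∂ρ ≤ ∫ x, (B x ^ 2 / (2 * ε) + ε / 2) ∂ρ := by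
        apply integral_mono (int_cont ρ hBc.abs) _ hle
        exact int_cont ρ (((hBc.pow 2).div_const _).add continuous_const)
    _ = (∫ x, B x ^ 2 ∂ρ) / (2 * ε) + ε / 2 := by
        have i1 : Integrable (fun x => B x ^ 2 / (2 * ε)) ρ :=
          int_cont ρ ((hBc.pow 2).div_const _)
        rw [integral_add i1 (integrable_const _), integral_div, integral_const]
        simp
    _ ≤ ε ^ 2 / (2 * ε) + ε / 2 := by gcongr
    _ = ε := by field_simp; ring

end Pool.Agent.W782.BKM
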